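import Pool.Agent.Helper18.PB.Defs

/-!
# Packet F5 (`GDelta`) for MP_b9cb57_an (helper18)
-/

set_option autoImplicit false

open MeasureTheory Measure
open scoped Pointwise

namespace Pool.Agent.Helper15.PB

open Pool.Agent.Helper18.PB

variable {n : ℕ}

theorem null_hyp (a : EuclideanSpace ℝ (Fin n)) (ha : a ≠ 0) :
    (volume : Measure (EuclideanSpace ℝ (Fin n))) {x | inner ℝ a x = (0 : ℝ)} = 0 := by
  have h := addHaar_submodule (volume : Measure (EuclideanSpace ℝ (Fin n)))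
    (LinearMap.ker (innerSL ℝ a : EuclideanSpace ℝ (Fin n) →ₗ[ℝ] ℝ)) (by
      intro h
      have h1 : a ∈ LinearMap.ker (innerSL ℝ a : EuclideanSpace ℝ (Fin n) →ₗ[ℝ] ℝ) := by
        rw [h]; exact Submodule.mem_top
      rw [LinearMap.mem_ker] at h1
      have h2 : inner ℝ a a = (0 : ℝ) := h1
      exact ha (inner_self_eq_zero.mp h2))
  have he : {x | inner ℝ a x = (0 : ℝ)}
      = ((LinearMap.ker (innerSL ℝ a : EuclideanSpace ℝ (Fin n) →ₗ[ℝ] ℝ) :
        Submodule ℝ (EuclideanSpace ℝ (Fin n))) : Set (EuclideanSpace ℝ (Fin n))) := by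
    ext x
    rfl
  rw [he]
  exact h

theorem exists_delta (a : EuclideanSpace ℝ (Fin n)) (ε : ENNReal) (hε : 0 < ε) :
    ∃ δ : ℝ, 0 < δ ∧ δ ≤ 1 ∧ (a ≠ 0 → (volume : Measure (EuclideanSpace ℝ (Fin n)))
      {x | x ∈ Metric.ball (0 : EuclideanSpace ℝ (Fin n)) 1 ∧ |inner ℝ a x| ≤ δ} ≤ ε) := by
  by_cases ha : a = 0
  · exact ⟨1, one_pos, le_refl _, fun h => absurd ha h⟩
  let S : ℕ → Set (EuclideanSpace ℝ (Fin n)) := fun m =>
    {x | x ∈ Metric.ball (0 : EuclideanSpace ℝ (Fin n)) 1 ∧ |inner ℝ a x| ≤ 1 / ((m : ℝ) + 1)}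
  have hm : ∀ m, MeasurableSet (S m) := by
    intro m
    apply Metric.isOpen_ball.measurableSet.inter
    apply IsClosed.measurableSet
    have hc : Continuous (fun x : EuclideanSpace ℝ (Fin n) => |(inner ℝ a x : ℝ)|) := by fun_prop
    exact isClosed_le hc continuous_const
  have hanti : Antitone S := by
    intro m m' hmm x hx
    refine ⟨hx.1, hx.2.trans ?_⟩
    apply one_div_le_one_div_of_le (by positivity)
    have : (m : ℝ) ≤ m' := by exact_mod_cast hmm
    linarith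
  have hlim := tendsto_measure_iInter_atTop (μ := (volume : Measure (EuclideanSpace ℝ (Fin n))))
    (s := S) (fun m => (hm m).nullMeasurableSet) hanti ⟨0, by
      refine ne_of_lt (lt_of_le_of_lt (measure_mono (fun x hx => hx.1)) ?_)
      exact measure_ball_lt_top⟩
  have h0 : (volume : Measure (EuclideanSpace ℝ (Fin n))) (⋂ m, S m) = 0 := by
    refine measure_mono_null ?_ (null_hyp a ha)
    intro x hx
    rw [Set.mem_iInter] at hx
    have h1 : |inner ℝ a x| ≤ 0 := by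
      refine ge_of_tendsto' tendsto_one_div_add_atTop_nhds_zero_nat (fun m => (hx m).2)
    exact abs_eq_zero.mp (le_antisymm h1 (abs_nonneg _))
  rw [h0] at hlim
  have hev := hlim.eventually (gt_mem_nhds hε)
  obtain ⟨m, hm1⟩ := hev.exists
  refine ⟨1 / ((m : ℝ) + 1), by positivity, ?_, fun _ => le_of_lt hm1⟩
  rw [div_le_one (by positivity)]
  have : (0 : ℝ) ≤ m := Nat.cast_nonneg m
  linarith

theorem f5 : GDelta := by
  intro n M a b hn
  obtain ⟨ε, hε, hsum⟩ := ENNReal.exists_pos_sum_of_countable' (ε := 1) one_ne_zero ℕ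
  choose δ hδ0 hδ1 hδ using fun k => exists_delta (a k) (ε k) (hε k)
  refine ⟨δ, fun k => ⟨hδ0 k, hδ1 k⟩, ?_⟩
  -- the exceptional sets
  let N0 : Set (EuclideanSpace ℝ (Fin n)) := {x | ∃ᶠ k in Filter.atTop, a k ≠ 0 ∧
    x ∈ Metric.ball (0 : EuclideanSpace ℝ (Fin n)) 1 ∧ |inner ℝ (a k) x| ≤ δ k}
  have hN0 : (volume : Measure (EuclideanSpace ℝ (Fin n))) N0 = 0 := by
    apply measure_setOfPred_frequently_eq_zero
    refine ne_of_lt (lt_of_le_of_lt (ENNReal.tsum_le_tsum (fun k => ?_)) (hsum.trans ENNReal.one_lt_top))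
    by_cases hk : a k = 0
    · have : {x : EuclideanSpace ℝ (Fin n) | a k ≠ 0 ∧
          x ∈ Metric.ball (0 : EuclideanSpace ℝ (Fin n)) 1 ∧ |inner ℝ (a k) x| ≤ δ k} = ∅ := by
        ext x; simp [hk]
      rw [this, measure_empty]; exact zero_le
    · exact (measure_mono (fun x hx => hx.2)).trans (hδ k hk)
  let A : Set (EuclideanSpace ℝ (Fin n)) := ⋃ m : ℕ, ((m : ℝ) + 1) • N0
  have hA : (volume : Measure (EuclideanSpace ℝ (Fin n))) A = 0 := by
    apply measure_iUnion_null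
    intro m
    rw [addHaar_smul, hN0, mul_zero]
  let B1 : Set (EuclideanSpace ℝ (Fin n)) := ⋃ k : {k : ℕ // a k ≠ 0}, {x | inner ℝ (a k) x = (0 : ℝ)}
  have hB1 : (volume : Measure (EuclideanSpace ℝ (Fin n))) B1 = 0 :=
    measure_iUnion_null (fun k => null_hyp _ k.2)
  let B2 : Set (EuclideanSpace ℝ (Fin n)) := ⋃ k : {k : Fin M // b k ≠ 0}, {x | inner ℝ (b k) x = (0 : ℝ)}
  have hB2 : (volume : Measure (EuclideanSpace ℝ (Fin n))) B2 = 0 :=
    measure_iUnion_null (fun k => null_hyp _ k.2)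
  let B3 : Set (EuclideanSpace ℝ (Fin n)) :=
    ⋃ k : {k : Fin M × Fin M // b k.1 - b k.2 ≠ 0}, {x | inner ℝ (b k.1.1 - b k.1.2) x = (0 : ℝ)}
  have hB3 : (volume : Measure (EuclideanSpace ℝ (Fin n))) B3 = 0 :=
    measure_iUnion_null (fun k => null_hyp _ k.2)
  let B4 : Set (EuclideanSpace ℝ (Fin n)) :=
    ⋃ k : {k : Fin M × Fin M // b k.1 + b k.2 ≠ 0}, {x | inner ℝ (b k.1.1 + b k.1.2) x = (0 : ℝ)}
  have hB4 : (volume : Measure (EuclideanSpace ℝ (Fin n))) B4 = 0 :=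
    measure_iUnion_null (fun k => null_hyp _ k.2)
  refine measure_mono_null (t := A ∪ (B1 ∪ (B2 ∪ (B3 ∪ B4)))) ?_
    (measure_union_null hA (measure_union_null hB1 (measure_union_null hB2
      (measure_union_null hB3 hB4))))
  intro x hx
  by_contra hc
  simp only [Set.mem_union, not_or] at hc
  obtain ⟨c1, c2, c3, c4, c5⟩ := hc
  apply hx
  refine ⟨?_, ?_, ?_, ?_⟩
  · intro k hk h0
    exact c2 (Set.mem_iUnion.mpr ⟨⟨k, hk⟩, h0⟩)
  · by_contra hno
    push Not at hno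
    apply c1
    obtain ⟨m, hm⟩ := exists_nat_gt ‖x‖
    refine Set.mem_iUnion.mpr ⟨m, ?_⟩
    have hm0 : (0 : ℝ) < (m : ℝ) + 1 := by positivity
    refine ⟨((m : ℝ) + 1)⁻¹ • x, ?_, ?_⟩
    · show ∃ᶠ k in Filter.atTop, _
      rw [Filter.frequently_atTop]
      intro k₀
      obtain ⟨k, hk, hk1, hk2⟩ := hno k₀
      refine ⟨k, hk, hk1, ?_, ?_⟩
      · rw [mem_ball_zero_iff, norm_smul, norm_inv, Real.norm_eq_abs, abs_of_pos hm0,
          inv_mul_lt_one₀ hm0]
        linarith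
      · rw [inner_smul_right, abs_mul, abs_inv, abs_of_pos hm0]
        have h1 : |inner ℝ (a k) x| ≤ δ k * ((m : ℝ) + 1) := by
          refine hk2.le.trans ?_
          apply mul_le_mul_of_nonneg_left _ (hδ0 k).le
          linarith
        rw [inv_mul_le_iff₀ hm0]
        linarith
    · show ((m : ℝ) + 1) • ((m : ℝ) + 1)⁻¹ • x = x
      rw [smul_smul, mul_inv_cancel₀ hm0.ne', one_smul]
  · intro i hi h0
    exact c3 (Set.mem_iUnion.mpr ⟨⟨i, hi⟩, h0⟩)
  · intro i j hij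
    by_contra hne
    push Not at hne
    rcases abs_eq_abs.mp hij with h | h
    · apply c4
      refine Set.mem_iUnion.mpr ⟨⟨(i, j), sub_ne_zero.mpr hne.1⟩, ?_⟩
      show inner ℝ (b i - b j) x = (0 : ℝ)
      rw [inner_sub_left, h, sub_self]
    · apply c5
      refine Set.mem_iUnion.mpr ⟨⟨(i, j), ?_⟩, ?_⟩
      · intro h0
        exact hne.2 (eq_neg_of_add_eq_zero_left h0)
      · show inner ℝ (b i + b j) x = (0 : ℝ)
        rw [inner_add_left, h, neg_add_cancel]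

end Pool.Agent.Helper15.PB
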